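import Pool.Agent.H557R2.Tri.Search

/-!
# Euclidean Max-3DM is NP-hard in every fixed dimension at least two

The points lie in three clusters near the corners of a huge triangle with sides in the ratio
`3 : 4 : 5`.  The first order terms of the perimeters do not depend on the partition (into
triples with one point in each cluster), and in each cluster the direction of displacement is
chosen such that the second order terms make the total perimeter equal to a constant minus a
multiple of the sum over the triples of `(h_a + h_b + h_c)^2`, where the `h` are the sizes of the
displacements.  So optimal partitions solve numerical 3-dimensional matching, to which exact cover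
by 3-sets is reduced.
-/

namespace Pool.Agent.Results.MP_b24d90_lc.NPHardAllDims

open Pool.Agent.NPC Pool.Agent.H557R2.Tri

theorem result : ∀ s : ℕ, 2 ≤ s →
    NPHardP (Max3DM s) ∧ (PolyOpt s → ∀ L, InNP L → InP L) := by
  intro s hs
  obtain ⟨n, rfl⟩ : ∃ n, s = n + 2 := ⟨s - 2, by omega⟩
  exact ⟨hard n, collapse n⟩

end Pool.Agent.Results.MP_b24d90_lc.NPHardAllDims
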